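import Pool.Agent.helper52.T1.SpecS

/-!
# MP_07c750, project T1, row BCN (few bad digits), from helper65's BDX and RET
-/

set_option autoImplicit false

open scoped MatrixGroups ContDiff Topology UpperHalfPlane ComplexConjugate
open UpperHalfPlane MeasureTheory Filter Set

namespace Pool.Agent.T1

open Pool.Agent.RS Pool.Agent.MS Pool.Agent.HV
open Pool.Agent.EN (XG MG mkX mkM fl pr)

noncomputable section

theorem BCN_XX (w τ x : ℝ) (hw : |w| ≤ 1 / 1000) (hτ : |τ| ≤ 1 / 1000) (hx : |x| ≤ 1 / 1000) : |4 * XX w τ x| ≤ 1 / 20 := by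
  obtain ⟨t1, t2⟩ := abs_le.1 hτ
  have e1 : Real.exp (τ / 2) ≤ 2 := by
    have h1 : Real.exp (τ / 2) ≤ Real.exp (1 / 2000) := Real.exp_le_exp.2 (by linarith)
    have h2 := Real.exp_bound_div_one_sub_of_interval (x := 1 / 2000) (by norm_num) (by norm_num)
    refine h1.trans (h2.trans ?_)
    norm_num
  have e2 : 9 / 10 ≤ Real.exp (-(τ / 2)) := by
    have h1 := Real.add_one_le_exp (-(τ / 2))
    linarith
  have e3 : |w * x * Real.exp (τ / 2)| ≤ 1 / 1000 * (1 / 1000) * 2 := by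
    rw [abs_mul, abs_mul, abs_of_pos (Real.exp_pos _)]
    exact mul_le_mul (mul_le_mul hw hx (abs_nonneg _) (by norm_num)) e1 (Real.exp_pos _).le (by norm_num)
  obtain ⟨w1, w2⟩ := abs_le.1 e3
  have hd : 1 / 2 ≤ dX w τ x := by
    unfold dX
    linarith
  have hd0 : 0 < dX w τ x := by linarith
  have e4 : |x * Real.exp (τ / 2)| ≤ 1 / 1000 * 2 := by
    rw [abs_mul, abs_of_pos (Real.exp_pos _)]
    exact mul_le_mul hx e1 (Real.exp_pos _).le (by norm_num)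
  have e5 : |XX w τ x| ≤ 1 / 80 := by
    unfold XX
    rw [abs_div, abs_of_pos hd0, div_le_iff₀ hd0]
    linarith
  rw [abs_mul, abs_of_pos (by norm_num : (0 : ℝ) < 4)]
  linarith

theorem BCN_NE (N : ℕ) (U : Finset ℤ) (t X : ℝ) : ‖NE N U t X‖ ≤ U.card := by
  unfold NE
  refine (norm_sum_le _ _).trans ?_
  have h : ∀ k ∈ U, ‖Nex (t * Nsx N X k)‖ ≤ 1 := by
    intro k _
    unfold Nex
    rw [Complex.norm_exp_ofReal_mul_I]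
  refine (Finset.sum_le_sum h).trans ?_
  simp

/-- one box `z` -/
theorem BCN_one (C1 C2 : ℝ) (hC1 : 1 ≤ C1) (hC2 : 1 ≤ C2) (N : ℕ) (U : Finset ℤ) (Um H G : ℝ) (P : ℕ → ℝ → Prop) (B : Finset ℕ)
    (hB : ∀ (θ T0 : ℝ), 0 < θ → θ ≤ 1 → 1 ≤ θ * T0 → ∀ J : Finset ℤ,
      (∀ j ∈ J, j ∈ Finset.Icc (-(N : ℤ)) N ∧ ∃ X t : ℝ, (j : ℝ) ≤ N * X ∧ N * X ≤ j + 1 ∧ |X| ≤ 1 / 8 ∧ T0 ≤ |t| ∧ |t| ≤ 4 * N ∧ θ * U.card ≤ ‖NE N U t X‖) →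
      (J.card : ℝ) * (U.card : ℝ) ^ 3 * θ ^ 7 * Real.sqrt T0 ≤ C1 * N ^ 4 * (1 + Real.log N) ^ 2)
    (hR : ∀ (X0 : ℝ) (Q : Finset ℕ), (∀ c ∈ Q, ∃ ξ, P c ξ ∧ |ξ - X0| ≤ 1 / (N : ℝ)) → (Q.card : ℝ) ≤ C2) (hP : ∀ c ξ, P c ξ → |4 * ξ| ≤ 1 / 20)
    (hN : 2 ≤ N) (hH : 2 ≤ H) (hG : 0 < G) (_hU0 : 0 ≤ Um) (hU : (U.card : ℝ) ≤ Um) (hUm : 2 * Um ≤ G * H)
    (hb : ∀ c ∈ B, ∃ ξ, P c ξ ∧ ∃ t : ℝ, H / 2 ≤ |t| ∧ |t| ≤ 4 * N ∧ G ≤ ‖NE N U t (4 * ξ)‖) :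
    (B.card : ℝ) ≤ 2 * (C1 * C2) * Um ^ 4 * (N : ℝ) ^ 4 * H ^ (-(1 / 2) : ℝ) * (1 + Real.log N) ^ 2 / G ^ 7 := by
  classical
  have hN2 : (2 : ℝ) ≤ N := by exact_mod_cast hN
  have hN0 : (0 : ℝ) < N := by linarith
  have hH0 : 0 < H := by linarith
  have hHp : 0 ≤ H ^ (-(1 / 2) : ℝ) := Real.rpow_nonneg hH0.le _
  have hlog : 0 ≤ Real.log N := Real.log_nonneg (by linarith)
  rcases Finset.eq_empty_or_nonempty B with he | ⟨c0, hc0⟩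
  · rw [he]
    simp only [Finset.card_empty, Nat.cast_zero]
    positivity
  choose! f hf using hb
  have hu : G ≤ U.card := by
    obtain ⟨-, t, -, -, h⟩ := hf c0 hc0
    exact h.trans (BCN_NE N U t _)
  have hu0 : (0 : ℝ) < U.card := by linarith
  obtain ⟨θ, hθ⟩ : ∃ θ, θ = G / U.card := ⟨_, rfl⟩
  have hθu : θ * U.card = G := by rw [hθ]; field_simp
  have hθ0 : 0 < θ := by rw [hθ]; positivity
  have hθ1 : θ ≤ 1 := by rw [hθ, div_le_one hu0]; exact hu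
  have hθT : 1 ≤ θ * (H / 2) := by
    rw [hθ, div_mul_eq_mul_div, le_div_iff₀ hu0]
    linarith
  obtain ⟨J, hJ⟩ : ∃ J : Finset ℤ, J = B.image fun c => ⌊(N : ℝ) * (4 * f c)⌋ := ⟨_, rfl⟩
  have hJc : (J.card : ℝ) * (U.card : ℝ) ^ 3 * θ ^ 7 * Real.sqrt (H / 2) ≤ C1 * N ^ 4 * (1 + Real.log N) ^ 2 := by
    refine hB θ (H / 2) hθ0 hθ1 hθT J ?_
    intro j hj
    rw [hJ] at hj
    obtain ⟨c, hc, rfl⟩ := Finset.mem_image.1 hj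
    obtain ⟨h1, t, h2, h3, h4⟩ := hf c hc
    have h5 := hP c (f c) h1
    obtain ⟨h6, h7⟩ := abs_le.1 h5
    have h8 : (N : ℝ) * (4 * f c) ≤ N * (1 / 20) := mul_le_mul_of_nonneg_left h7 hN0.le
    have h9 : (N : ℝ) * (-(1 / 20)) ≤ N * (4 * f c) := mul_le_mul_of_nonneg_left h6 hN0.le
    refine ⟨?_, 4 * f c, t, Int.floor_le _, (Int.lt_floor_add_one _).le, ?_, h2, h3, ?_⟩
    · rw [Finset.mem_Icc]
      constructor
      · rw [Int.le_floor]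
        push_cast
        linarith
      · have h10 : ⌊(N : ℝ) * (4 * f c)⌋ ≤ ⌊((N : ℤ) : ℝ)⌋ := by
          apply Int.floor_le_floor
          push_cast
          linarith
        rwa [Int.floor_intCast] at h10
    · linarith
    · rw [hθu]; exact h4
  have hsub : B ⊆ J.biUnion fun j => B.filter fun c => ⌊(N : ℝ) * (4 * f c)⌋ = j := by
    intro c hc
    refine Finset.mem_biUnion.2 ⟨⌊(N : ℝ) * (4 * f c)⌋, ?_, Finset.mem_filter.2 ⟨hc, rfl⟩⟩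
    rw [hJ]
    exact Finset.mem_image_of_mem _ hc
  have hQ : ∀ j : ℤ, ((B.filter fun c => ⌊(N : ℝ) * (4 * f c)⌋ = j).card : ℝ) ≤ C2 := by
    intro j
    refine hR ((j : ℝ) / (4 * N)) _ ?_
    intro c hc
    obtain ⟨hcB, hcj⟩ := Finset.mem_filter.1 hc
    refine ⟨f c, (hf c hcB).1, ?_⟩
    have h1 := Int.floor_le ((N : ℝ) * (4 * f c))
    have h2 := Int.lt_floor_add_one ((N : ℝ) * (4 * f c))
    rw [hcj] at h1 h2
    have e : f c - (j : ℝ) / (4 * N) = (N * (4 * f c) - j) / (4 * N) := by field_simp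
    rw [e, abs_div, abs_of_pos (by positivity : (0 : ℝ) < 4 * N), abs_of_nonneg (by linarith), div_le_div_iff₀ (by positivity) hN0]
    nlinarith
  have hcard : (B.card : ℝ) ≤ J.card * C2 := by
    have c1 : B.card ≤ ∑ j ∈ J, (B.filter fun c => ⌊(N : ℝ) * (4 * f c)⌋ = j).card :=
      (Finset.card_le_card hsub).trans Finset.card_biUnion_le
    have c2 : (B.card : ℝ) ≤ ∑ j ∈ J, ((B.filter fun c => ⌊(N : ℝ) * (4 * f c)⌋ = j).card : ℝ) := by exact_mod_cast c1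
    refine c2.trans ((Finset.sum_le_sum fun j _ => hQ j).trans ?_)
    simp
  -- the square root
  have hs0 : 0 < Real.sqrt (H / 2) := Real.sqrt_pos.2 (by linarith)
  have hs1 : 1 ≤ 2 * H ^ (-(1 / 2) : ℝ) * Real.sqrt (H / 2) := by
    have e1 : H ^ (-(1 / 2) : ℝ) = (Real.sqrt H)⁻¹ := by
      rw [Real.rpow_neg hH0.le, Real.sqrt_eq_rpow]
    have e2 : 0 < Real.sqrt H := Real.sqrt_pos.2 hH0
    have e3 : Real.sqrt H ≤ 2 * Real.sqrt (H / 2) := by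
      have h1 : Real.sqrt H ≤ Real.sqrt (2 ^ 2 * (H / 2)) := Real.sqrt_le_sqrt (by linarith)
      rwa [Real.sqrt_mul (by norm_num), Real.sqrt_sq (by norm_num)] at h1
    rw [e1, show 2 * (Real.sqrt H)⁻¹ * Real.sqrt (H / 2) = (2 * Real.sqrt (H / 2)) / Real.sqrt H by ring, le_div_iff₀ e2]
    linarith
  have hkey : (J.card : ℝ) * G ^ 7 ≤ 2 * C1 * Um ^ 4 * (N : ℝ) ^ 4 * H ^ (-(1 / 2) : ℝ) * (1 + Real.log N) ^ 2 := by
    have e1 : G ^ 7 = (U.card : ℝ) ^ 3 * θ ^ 7 * (U.card : ℝ) ^ 4 := by rw [← hθu]; ring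
    have e2 : (U.card : ℝ) ^ 4 ≤ Um ^ 4 := pow_le_pow_left₀ hu0.le hU 4
    have e3 : 0 ≤ (J.card : ℝ) * (U.card : ℝ) ^ 3 * θ ^ 7 := by positivity
    calc (J.card : ℝ) * G ^ 7 = ((J.card : ℝ) * (U.card : ℝ) ^ 3 * θ ^ 7) * (U.card : ℝ) ^ 4 * 1 := by rw [e1]; ring
      _ ≤ ((J.card : ℝ) * (U.card : ℝ) ^ 3 * θ ^ 7) * Um ^ 4 * (2 * H ^ (-(1 / 2) : ℝ) * Real.sqrt (H / 2)) :=
          mul_le_mul (mul_le_mul_of_nonneg_left e2 e3) hs1 zero_le_one (by positivity)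
      _ = ((J.card : ℝ) * (U.card : ℝ) ^ 3 * θ ^ 7 * Real.sqrt (H / 2)) * (Um ^ 4 * (2 * H ^ (-(1 / 2) : ℝ))) := by ring
      _ ≤ (C1 * N ^ 4 * (1 + Real.log N) ^ 2) * (Um ^ 4 * (2 * H ^ (-(1 / 2) : ℝ))) :=
          mul_le_mul_of_nonneg_right hJc (by positivity)
      _ = _ := by ring
  rw [le_div_iff₀ (by positivity)]
  calc (B.card : ℝ) * G ^ 7 ≤ (J.card * C2) * G ^ 7 := mul_le_mul_of_nonneg_right hcard (by positivity)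
    _ = C2 * ((J.card : ℝ) * G ^ 7) := by ring
    _ ≤ C2 * (2 * C1 * Um ^ 4 * (N : ℝ) ^ 4 * H ^ (-(1 / 2) : ℝ) * (1 + Real.log N) ^ 2) :=
        mul_le_mul_of_nonneg_left hkey (by linarith)
    _ = _ := by ring

theorem BCN_proof (hBDX : BDX_stmt) (hRET : RET_stmt) : BCN_stmt := by
  classical
  intro Γ hΓ
  obtain ⟨C1, hC1, hB⟩ := hBDX
  obtain ⟨C2, hC2, hR⟩ := hRET Γ hΓ
  have hCC : 1 ≤ C1 * C2 := one_le_mul_of_one_le_of_one_le hC1 hC2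
  refine ⟨2 * (C1 * C2), by linarith, ?_⟩
  intro Z U N0 k h Um H G B hN0 hH hHN hG hU0 hUm hZ hb
  obtain ⟨N, hN⟩ : ∃ N : ℕ, N = N0 ^ k := ⟨_, rfl⟩
  have hNc : ((N : ℕ) : ℝ) = (N0 : ℝ) ^ k := by rw [hN]; push_cast; rfl
  rw [← hNc] at hHN ⊢
  rw [← hN] at hZ hb
  have hN2 : (2 : ℝ) ≤ N := hH.trans hHN
  have hN2' : 2 ≤ N := by exact_mod_cast hN2
  obtain ⟨Rep, hRep⟩ : ∃ Rep : SL(2, ℝ) → ℕ → ℝ → Prop, Rep = fun z c ξ => c < N0 ^ k ∧ ∃ (γ : Γ) (w τ x : ℝ), |w| ≤ 1 / 1000 ∧ |τ| ≤ 1 / 1000 ∧ |x| ≤ 1 / 1000 ∧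
    (γ : SL(2, ℝ)) * (h * lM (4 * ((c : ℝ) / N0 ^ k)) * aM (k * Real.log N0)) = z * lM w * aM τ * nM x ∧ ξ = XX w τ x := ⟨_, rfl⟩
  obtain ⟨Bz, hBz⟩ : ∃ Bz : SL(2, ℝ) → Finset ℕ, Bz = fun z => B.filter fun c => ∃ ξ, Rep z c ξ ∧ ∃ t : ℝ, H / 2 ≤ |t| ∧ |t| ≤ 4 * N ∧ G ≤ ‖NE N (U z) t (4 * ξ)‖ := ⟨_, rfl⟩
  have hsub : B ⊆ Z.biUnion Bz := by
    intro c hc
    obtain ⟨hcN, z, hz, γ, w, τ, x, hw, hτ, hx, heq, t, ht1, ht2, ht3⟩ := hb c hc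
    rw [← hNc] at ht2
    refine Finset.mem_biUnion.2 ⟨z, hz, ?_⟩
    rw [hBz]
    refine Finset.mem_filter.2 ⟨hc, XX w τ x, ?_, t, ht1, ht2, ht3⟩
    rw [hRep]
    exact ⟨by rw [← hN]; exact hcN, γ, w, τ, x, hw, hτ, hx, heq, rfl⟩
  obtain ⟨K, hK⟩ : ∃ K : ℝ, K = 2 * (C1 * C2) * Um ^ 4 * (N : ℝ) ^ 4 * H ^ (-(1 / 2) : ℝ) * (1 + Real.log N) ^ 2 / G ^ 7 := ⟨_, rfl⟩
  have hBc : ∀ z ∈ Z, ((Bz z).card : ℝ) ≤ K := by
    intro z hz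
    rw [hK]
    refine BCN_one C1 C2 hC1 hC2 N (U z) Um H G (Rep z) (Bz z) ?_ ?_ ?_ hN2' hH hG hU0 (hZ z hz).1 hUm ?_
    · intro θ T0 hθ hθ1 hθT J hJ
      have hT0 : 0 ≤ Real.sqrt T0 := Real.sqrt_nonneg _
      have h1 := hB N (U z) θ T0 (by omega) (hZ z hz).2 hθ hθ1 hθT
      refine le_trans ?_ h1
      refine mul_le_mul_of_nonneg_right (mul_le_mul_of_nonneg_right (mul_le_mul_of_nonneg_right ?_ (by positivity)) (by positivity)) hT0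
      have h2 : J ⊆ ({j ∈ Finset.Icc (-(N : ℤ)) N | ∃ X t : ℝ, (j : ℝ) ≤ N * X ∧ N * X ≤ j + 1 ∧ |X| ≤ 1 / 8 ∧ T0 ≤ |t| ∧ |t| ≤ 4 * N ∧ θ * (U z).card ≤ ‖NE N (U z) t X‖} : Finset ℤ) := by
        intro j hj
        exact Finset.mem_filter.2 (hJ j hj)
      exact_mod_cast Finset.card_le_card h2
    · intro X0 Q hQ
      refine hR N0 k h z X0 Q hN0 ?_
      intro c hc
      obtain ⟨ξ, hξ, hξ2⟩ := hQ c hc
      rw [hRep] at hξ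
      obtain ⟨hcN, γ, w, τ, x, hw, hτ, hx, heq, hξ⟩ := hξ
      refine ⟨hcN, γ, w, τ, x, hw, hτ, hx, heq, ?_⟩
      rw [← hξ, ← hNc]; exact hξ2
    · intro c ξ hξ
      rw [hRep] at hξ
      obtain ⟨-, γ, w, τ, x, hw, hτ, hx, -, rfl⟩ := hξ
      exact BCN_XX w τ x hw hτ hx
    · intro c hc
      rw [hBz] at hc
      exact (Finset.mem_filter.1 hc).2
  have hcard : (B.card : ℝ) ≤ Z.card * K := by
    have c1 : B.card ≤ ∑ z ∈ Z, (Bz z).card := (Finset.card_le_card hsub).trans Finset.card_biUnion_le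
    have c2 : (B.card : ℝ) ≤ ∑ z ∈ Z, ((Bz z).card : ℝ) := by exact_mod_cast c1
    refine c2.trans ((Finset.sum_le_sum hBc).trans ?_)
    simp
  refine hcard.trans (le_of_eq ?_)
  rw [hK]
  ring

end

end Pool.Agent.T1
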