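import Pool.Agent.helper52.T1.SpecS

/-! Row LWN of project T1: the gain of a window (helper96, adapted by helper59 to the present SpecS). -/

set_option autoImplicit false

open scoped MatrixGroups ContDiff Topology UpperHalfPlane ComplexConjugate
open UpperHalfPlane MeasureTheory Filter Set

namespace Pool.Agent.T1

open Pool.Agent.RS Pool.Agent.MS Pool.Agent.HV
open Pool.Agent.EN (XG MG mkX mkM fl pr)

noncomputable section

/-! ## Labels -/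

theorem LWN_Kc_add (p : ℕ → Bool) {a b c : ℕ} (h1 : a ≤ b) (h2 : b ≤ c) : Kc p a c = Kc p a b + Kc p b c := by
  classical
  have h3 : Finset.Ico a c = Finset.Ico a b ∪ Finset.Ico b c := (Finset.Ico_union_Ico_eq_Ico h1 h2).symm
  have h4 : Disjoint ((Finset.Ico a b).filter fun i => p i = true) ((Finset.Ico b c).filter fun i => p i = true) :=
    Finset.disjoint_filter_filter (Finset.Ico_disjoint_Ico_consecutive a b c)
  unfold Kc
  rw [h3, Finset.filter_union, Finset.card_union_of_disjoint h4]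

theorem LWN_Kc_le (p : ℕ → Bool) (s t : ℕ) : Kc p s t ≤ t - s := by
  unfold Kc
  refine (Finset.card_filter_le _ _).trans ?_
  rw [Nat.card_Ico]

theorem LWN_U (p q : ℕ → Bool) (s t : ℕ) : t - s ≤ Kc q s t + (Kc p s t + UU p q s t) := by
  classical
  have h1 : Finset.Ico s t ⊆ ((Finset.Ico s t).filter fun i => q i = true) ∪ (((Finset.Ico s t).filter fun i => p i = true) ∪
      ((Finset.Ico s t).filter fun i => p i = false ∧ q i = false)) := by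
    intro i hi
    rw [Finset.mem_union, Finset.mem_union, Finset.mem_filter, Finset.mem_filter, Finset.mem_filter]
    cases hq : q i <;> cases hp : p i <;> simp [hi]
  have h2 := Finset.card_le_card h1
  have h3 := Finset.card_union_le ((Finset.Ico s t).filter fun i => q i = true) (((Finset.Ico s t).filter fun i => p i = true) ∪
      ((Finset.Ico s t).filter fun i => p i = false ∧ q i = false))
  have h4 := Finset.card_union_le ((Finset.Ico s t).filter fun i => p i = true) ((Finset.Ico s t).filter fun i => p i = false ∧ q i = false)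
  rw [Nat.card_Ico] at h2
  have e1 : Kc q s t = ((Finset.Ico s t).filter fun i => q i = true).card := rfl
  have e2 : Kc p s t = ((Finset.Ico s t).filter fun i => p i = true).card := rfl
  have e3 : UU p q s t = ((Finset.Ico s t).filter fun i => p i = false ∧ q i = false).card := by
    unfold UU
    congr
  omega

theorem LWN_UU_mono (p q : ℕ → Bool) {a b a' b' : ℕ} (h1 : a' ≤ a) (h2 : b ≤ b') : UU p q a b ≤ UU p q a' b' := by
  unfold UU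
  exact Finset.card_le_card (Finset.filter_subset_filter _ (Finset.Ico_subset_Ico h1 h2))

theorem LWN_Kc_sh (p : ℕ → Bool) (s t : ℕ) : Kc (sh s p) 0 t = Kc p s (s + t) := by
  classical
  unfold Kc
  refine Finset.card_bij (fun i _ => s + i) ?_ ?_ ?_
  · intro i hi
    rw [Finset.mem_filter, Finset.mem_Ico] at hi ⊢
    exact ⟨⟨by omega, by omega⟩, hi.2⟩
  · intro i _ j _ hij
    exact Nat.add_left_cancel hij
  · intro j hj
    rw [Finset.mem_filter, Finset.mem_Ico] at hj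
    refine ⟨j - s, ?_, by omega⟩
    rw [Finset.mem_filter, Finset.mem_Ico]
    refine ⟨⟨by omega, by omega⟩, ?_⟩
    unfold sh
    have : s + (j - s) = j := by omega
    rw [this]
    exact hj.2

/-! ## Powers -/

theorem LWN_pw {P x s : ℝ} (hP : 1 ≤ P) (hx : 0 ≤ x) (h : x ≤ P ^ s) (n m : ℕ) : x ^ n * P ^ m ≤ P ^ (s * n + m) := by
  have hP0 : 0 < P := by linarith
  have h1 : x ^ n ≤ P ^ (s * n) := by
    rw [Real.rpow_mul hP0.le, Real.rpow_natCast]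
    exact pow_le_pow_left₀ hx h n
  have h2 : P ^ m = P ^ (m : ℝ) := (Real.rpow_natCast P m).symm
  rw [Real.rpow_add hP0, h2]
  exact mul_le_mul_of_nonneg_right h1 (Real.rpow_pos_of_pos hP0 _).le

theorem LWN_log (ε1 : ℝ) (hε : 0 < ε1) (P : ℝ) (hP : 2 ≤ P) (hl : 6 * 202 ^ 2 / ε1 ^ 3 ≤ Real.log P) (r : ℕ) (hr : 1 ≤ r) :
    Real.log (2 + P ^ (101 * r)) ^ 2 ≤ P ^ (ε1 * r) := by
  have hP0 : 0 < P := by linarith
  have hr' : (1 : ℝ) ≤ r := by exact_mod_cast hr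
  have hL : 0 < Real.log P := Real.log_pos (by linarith)
  have hN : 2 ≤ P ^ (101 * r) := by
    calc (2 : ℝ) ≤ P := hP
      _ = P ^ 1 := (pow_one P).symm
      _ ≤ P ^ (101 * r) := pow_le_pow_right₀ (by linarith) (by omega)
  have h1 : Real.log (2 + P ^ (101 * r)) ≤ 202 * r * Real.log P := by
    have h2 : 2 + P ^ (101 * r) ≤ P ^ (101 * r) * P ^ (101 * r) := by nlinarith
    calc Real.log (2 + P ^ (101 * r)) ≤ Real.log (P ^ (101 * r) * P ^ (101 * r)) := Real.log_le_log (by linarith) h2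
      _ = 202 * r * Real.log P := by
        rw [Real.log_mul (by positivity) (by positivity), Real.log_pow]
        push_cast
        ring
  have h0 : 0 ≤ Real.log (2 + P ^ (101 * r)) := Real.log_nonneg (by linarith)
  have h2 : Real.log (2 + P ^ (101 * r)) ^ 2 ≤ (202 * r * Real.log P) ^ 2 := pow_le_pow_left₀ h0 h1 2
  refine h2.trans ?_
  have h3 : P ^ (ε1 * r) = Real.exp (ε1 * r * Real.log P) := by
    rw [Real.rpow_def_of_pos hP0]
    congr 1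
    ring
  rw [h3]
  set y : ℝ := ε1 * r * Real.log P with hy
  have hy0 : 0 < y := by positivity
  have h4 : y ^ 3 / (Nat.factorial 3 : ℝ) ≤ Real.exp y := Real.pow_div_factorial_le_exp y hy0.le 3
  have h5 : (Nat.factorial 3 : ℝ) = 6 := by norm_num [Nat.factorial]
  rw [h5] at h4
  refine le_trans ?_ h4
  have h6 : (202 * r * Real.log P) ^ 2 = (202 ^ 2 / ε1 ^ 2) * y ^ 2 := by
    rw [hy]
    field_simp
  rw [h6]
  have h7 : 6 * 202 ^ 2 / ε1 ^ 2 ≤ y := by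
    have h8 : 6 * 202 ^ 2 / ε1 ^ 2 = ε1 * (6 * 202 ^ 2 / ε1 ^ 3) := by
      field_simp
    rw [h8, hy]
    calc ε1 * (6 * 202 ^ 2 / ε1 ^ 3) ≤ ε1 * Real.log P := mul_le_mul_of_nonneg_left hl hε.le
      _ = ε1 * 1 * Real.log P := by ring
      _ ≤ ε1 * r * Real.log P := by gcongr
  have h9 : 202 ^ 2 / ε1 ^ 2 ≤ y / 6 := by
    have : 6 * 202 ^ 2 / ε1 ^ 2 = 6 * (202 ^ 2 / ε1 ^ 2) := by ring
    linarith
  calc 202 ^ 2 / ε1 ^ 2 * y ^ 2 ≤ y / 6 * y ^ 2 := mul_le_mul_of_nonneg_right h9 (by positivity)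
    _ = y ^ 3 / 6 := by ring

/-! ## Exponential sums -/

theorem LWN_e1_add (a b : ℝ) : e1 (a + b) = e1 a * e1 b := by
  unfold e1
  rw [← Complex.exp_add]
  congr 1
  push_cast
  ring

theorem LWN_e1_norm (a : ℝ) : ‖e1 a‖ = 1 := by
  unfold e1
  exact Complex.norm_exp_ofReal_mul_I _

theorem LWN_dX {w τ x : ℝ} (hw : |w| ≤ 1 / 1000) (hτ : |τ| ≤ 1 / 1000) (hx : |x| ≤ 1 / 1000) : 1 / 2 ≤ dX w τ x ^ 2 ∧ dX w τ x ^ 2 ≤ 2 := by
  have h1 : |Real.exp (-(τ / 2)) - 1| ≤ 1 / 500 := by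
    have h2 : |-(τ / 2)| ≤ 1 := by
      rw [abs_neg, abs_div, abs_of_pos (by norm_num : (0 : ℝ) < 2)]
      linarith
    have h3 := Real.abs_exp_sub_one_le h2
    rw [abs_neg, abs_div, abs_of_pos (by norm_num : (0 : ℝ) < 2)] at h3
    linarith
  have h4 : |w * x * Real.exp (τ / 2)| ≤ 1 / 500 := by
    have h5 : Real.exp (τ / 2) ≤ 2 := by
      have h6 : |τ / 2| ≤ 1 := by
        rw [abs_div, abs_of_pos (by norm_num : (0 : ℝ) < 2)]
        linarith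
      have h7 := Real.abs_exp_sub_one_le h6
      rw [abs_div, abs_of_pos (by norm_num : (0 : ℝ) < 2)] at h7
      have := (abs_le.1 h7).2
      linarith
    rw [abs_mul, abs_mul, abs_of_pos (Real.exp_pos _)]
    have h8 : |w| * |x| ≤ 1 / 1000 * (1 / 1000) := mul_le_mul hw hx (abs_nonneg _) (by norm_num)
    calc |w| * |x| * Real.exp (τ / 2) ≤ 1 / 1000 * (1 / 1000) * 2 := mul_le_mul h8 h5 (Real.exp_pos _).le (by norm_num)
      _ ≤ 1 / 500 := by norm_num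
  have h9 : |dX w τ x - 1| ≤ 1 / 250 := by
    unfold dX
    have h10 : Real.exp (-(τ / 2)) + w * x * Real.exp (τ / 2) - 1 = (Real.exp (-(τ / 2)) - 1) + w * x * Real.exp (τ / 2) := by ring
    rw [h10]
    refine (abs_add_le _ _).trans ?_
    linarith
  obtain ⟨h11, h12⟩ := abs_le.1 h9
  constructor <;> nlinarith

theorem LWN_sum (N : ℕ) (U : Finset ℤ) (w τ x θ : ℝ) :
    ‖∑ κ ∈ U, e1 (θ * vk N w τ x κ)‖ = ‖EU N U (θ / dX w τ x ^ 2) (4 * XX w τ x)‖ := by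
  have h1 : ∑ κ ∈ U, e1 (θ * vk N w τ x κ) = e1 (θ * (-(w * Real.exp (τ / 2) / dX w τ x) / 4)) * EU N U (θ / dX w τ x ^ 2) (4 * XX w τ x) := by
    unfold EU
    rw [Finset.mul_sum]
    refine Finset.sum_congr rfl fun κ _ => ?_
    rw [← LWN_e1_add]
    congr 1
    unfold vk
    rw [div_mul_eq_div_div]
    ring
  rw [h1, norm_mul, LWN_e1_norm, one_mul]

theorem LWN_good (hSCR : SCR_stmt) (N : ℕ) (Cs J : Finset ℕ) (U : Finset ℤ) (w τ x H D G : ℝ) (hN : 1 ≤ N) (hw : |w| ≤ 1 / 1000) (hτ : |τ| ≤ 1 / 1000) (hx : |x| ≤ 1 / 1000)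
    (hD0 : 0 ≤ D) (hG0 : 0 ≤ G) (hCs : ∀ c ∈ Cs, c < N) (hJ : ∀ j ∈ J, j < N) (hcov : ∀ c ∈ Cs, ∃ κ ∈ U, |(c : ℝ) / N - vk N w τ x κ| ≤ 8 / N)
    (hD : ∀ j ∈ J, ∀ T : Finset ℕ, T ⊆ J → (∀ j' ∈ T, |(j : ℝ) - j'| < H) → (T.card : ℝ) ≤ D)
    (hgood : ∀ t : ℝ, H / 2 ≤ |t| → |t| ≤ 4 * N → ‖EU N U t (4 * XX w τ x)‖ ≤ G) :
    LQ (cel N Cs) J (18 / N * (U.card * D + J.card * G)) := by
  refine hSCR N Cs J U (vk N w τ x) H D G hN hD0 hG0 hCs hcov hD ?_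
  intro j hj j' hj' hH
  rw [LWN_sum]
  obtain ⟨hd1, hd2⟩ := LWN_dX hw hτ hx
  have hd0 : 0 < dX w τ x ^ 2 := by linarith
  have hab : |((j : ℝ) - j') / dX w τ x ^ 2| = |(j : ℝ) - j'| / dX w τ x ^ 2 := by
    rw [abs_div, abs_of_pos hd0]
  refine hgood _ ?_ ?_
  · rw [hab, le_div_iff₀ hd0]
    have h1 := abs_nonneg ((j : ℝ) - j')
    have h2 : H / 2 * dX w τ x ^ 2 ≤ |(j : ℝ) - j'| / 2 * dX w τ x ^ 2 := mul_le_mul_of_nonneg_right (by linarith) hd0.le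
    have h3 : |(j : ℝ) - j'| / 2 * dX w τ x ^ 2 ≤ |(j : ℝ) - j'| / 2 * 2 := mul_le_mul_of_nonneg_left hd2 (by linarith)
    linarith
  · rw [hab, div_le_iff₀ hd0]
    have h1 : (j : ℝ) < N := by exact_mod_cast hJ j hj
    have h2 : (j' : ℝ) < N := by exact_mod_cast hJ j' hj'
    have h3 : (0 : ℝ) ≤ j := Nat.cast_nonneg _
    have h4 : (0 : ℝ) ≤ j' := Nat.cast_nonneg _
    have h5 : |(j : ℝ) - j'| ≤ N := by
      rw [abs_le]
      constructor <;> linarith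
    have h6 : (0 : ℝ) ≤ N := Nat.cast_nonneg _
    nlinarith

/-! ## Counting -/

theorem LWN_near (a b M : ℕ) (hM : 1 ≤ M) (h : |(a : ℝ) - b| < M) : b / M ∈ Finset.Icc (a / M - 1) (a / M + 1) := by
  obtain ⟨h1, h2⟩ := abs_lt.1 h
  have h3 : b < a + M := by
    have : (b : ℝ) < a + M := by linarith
    exact_mod_cast this
  have h4 : a < b + M := by
    have : (a : ℝ) < b + M := by linarith
    exact_mod_cast this
  have h5 : b / M ≤ a / M + 1 := by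
    calc b / M ≤ (a + M) / M := Nat.div_le_div_right h3.le
      _ = a / M + 1 := Nat.add_div_right _ hM
  have h6 : a / M ≤ b / M + 1 := by
    calc a / M ≤ (b + M) / M := Nat.div_le_div_right h4.le
      _ = b / M + 1 := Nat.add_div_right _ hM
  rw [Finset.mem_Icc]
  exact ⟨Nat.sub_le_iff_le_add.mpr h6, h5⟩

/-- points of a set of cells which are close -/
theorem LWN_D (M : ℕ) (hM : 1 ≤ M) (J T : Finset ℕ) (Dm : ℝ) (hD0 : 0 ≤ Dm) (hfib : ∀ e : ℕ, ∃ Y : Finset ℕ, (Y.card : ℝ) ≤ Dm ∧ ∀ j ∈ J, j / M = e → j % M ∈ Y)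
    (hT : T ⊆ J) (j : ℕ) (hj : ∀ j' ∈ T, |(j : ℝ) - j'| < M) : (T.card : ℝ) ≤ 3 * Dm := by
  classical
  have h1 : T.card = ∑ e ∈ Finset.Icc (j / M - 1) (j / M + 1), (T.filter fun j' => j' / M = e).card :=
    Finset.card_eq_sum_card_fiberwise fun j' hj' => LWN_near j j' M hM (hj j' hj')
  have h2 : ∀ e ∈ Finset.Icc (j / M - 1) (j / M + 1), ((T.filter fun j' => j' / M = e).card : ℝ) ≤ Dm := by
    intro e _
    obtain ⟨Y, hY1, hY2⟩ := hfib e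
    refine le_trans ?_ hY1
    have h3 : (T.filter fun j' => j' / M = e).card ≤ Y.card := by
      refine Finset.card_le_card_of_injOn (fun j' => j' % M) ?_ ?_
      · intro a ha
        have ha' := Finset.mem_filter.1 (Finset.mem_coe.1 ha)
        exact Finset.mem_coe.2 (hY2 a (hT ha'.1) ha'.2)
      · intro a ha b hb hab
        have ha' := (Finset.mem_filter.1 (Finset.mem_coe.1 ha)).2
        have hb' := (Finset.mem_filter.1 (Finset.mem_coe.1 hb)).2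
        have hab' : a % M = b % M := hab
        rw [← Nat.div_add_mod a M, ← Nat.div_add_mod b M, ha', hb', hab']
    exact_mod_cast h3
  have h3 : (T.card : ℝ) ≤ ∑ _e ∈ Finset.Icc (j / M - 1) (j / M + 1), Dm := by
    rw [h1]
    push_cast
    exact Finset.sum_le_sum h2
  refine h3.trans ?_
  rw [Finset.sum_const, nsmul_eq_mul]
  have h4 : ((Finset.Icc (j / M - 1) (j / M + 1)).card : ℝ) ≤ 3 := by
    have : (Finset.Icc (j / M - 1) (j / M + 1)).card ≤ 3 := by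
      rw [Nat.card_Icc]
      generalize j / M = u
      omega
    exact_mod_cast this
  exact mul_le_mul_of_nonneg_right h4 hD0

/-! ## Numbers -/

theorem LWN_badnum (P C3 z ε1 s r k KX lg B : ℝ) (hP : 1 ≤ P) (hz0 : 0 ≤ C3 * z) (hz : 324 * (C3 * z) ≤ P ^ ε1) (hlg : lg ≤ 4 * P ^ (ε1 * r))
    (hB : B ≤ C3 * z * (3 * P ^ (s * KX + (k - KX))) ^ 4 * (P ^ k) ^ 4 * (P ^ (100 * r)) ^ (-(1 / 2) : ℝ) * lg / (P ^ (k - KX - r)) ^ 7) :
    B ≤ P ^ (ε1 + ε1 * r + (4 * (s * KX + (k - KX)) + 4 * k - 50 * r - 7 * (k - KX - r))) := by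
  have hP0 : 0 < P := by linarith
  refine hB.trans ?_
  have e1 : (P ^ (s * KX + (k - KX))) ^ 4 = P ^ (4 * (s * KX + (k - KX))) := by
    rw [← Real.rpow_natCast, ← Real.rpow_mul hP0.le]
    congr 1
    push_cast
    ring
  have e2 : (P ^ k) ^ 4 = P ^ (4 * k) := by
    rw [← Real.rpow_natCast, ← Real.rpow_mul hP0.le]
    congr 1
    push_cast
    ring
  have e3 : (P ^ (100 * r)) ^ (-(1 / 2) : ℝ) = P ^ (-(50 * r)) := by
    rw [← Real.rpow_mul hP0.le]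
    congr 1
    ring
  have e4 : (P ^ (k - KX - r)) ^ 7 = P ^ (7 * (k - KX - r)) := by
    rw [← Real.rpow_natCast, ← Real.rpow_mul hP0.le]
    congr 1
    push_cast
    ring
  have e5 : C3 * z * (3 * P ^ (s * KX + (k - KX))) ^ 4 * (P ^ k) ^ 4 * (P ^ (100 * r)) ^ (-(1 / 2) : ℝ) * lg / (P ^ (k - KX - r)) ^ 7 =
      (81 * (C3 * z)) * lg * P ^ (4 * (s * KX + (k - KX)) + 4 * k - 50 * r - 7 * (k - KX - r)) := by
    rw [mul_pow, e1, e2, e3, e4]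
    have e6 : P ^ (4 * (s * KX + (k - KX)) + 4 * k - 50 * r - 7 * (k - KX - r)) = P ^ (4 * (s * KX + (k - KX))) * P ^ (4 * k) * P ^ (-(50 * r)) / P ^ (7 * (k - KX - r)) := by
      rw [← Real.rpow_add hP0, ← Real.rpow_add hP0, ← Real.rpow_sub hP0, ← sub_eq_add_neg]
    rw [e6]
    ring
  rw [e5]
  have h1 : 0 ≤ P ^ (4 * (s * KX + (k - KX)) + 4 * k - 50 * r - 7 * (k - KX - r)) := (Real.rpow_pos_of_pos hP0 _).le
  have h2 : (81 * (C3 * z)) * lg ≤ P ^ ε1 * P ^ (ε1 * r) := by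
    calc (81 * (C3 * z)) * lg ≤ (81 * (C3 * z)) * (4 * P ^ (ε1 * r)) := mul_le_mul_of_nonneg_left hlg (by linarith)
      _ = (324 * (C3 * z)) * P ^ (ε1 * r) := by ring
      _ ≤ P ^ ε1 * P ^ (ε1 * r) := mul_le_mul_of_nonneg_right hz (Real.rpow_pos_of_pos hP0 _).le
  refine (mul_le_mul_of_nonneg_right h2 h1).trans (le_of_eq ?_)
  rw [← Real.rpow_add hP0, ← Real.rpow_add hP0]

theorem LWN_num (P C0 ε ε1 ρ s r k KX q0 q1 q2 p1 l u : ℝ) (hP : 1 ≤ P) (hC0 : 1 ≤ C0) (hε1 : ε1 = ε / 200) (hs : s = ρ + ε1) (hρ : 0 ≤ ρ) (hε : 0 < ε)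
    (hr : 1 ≤ r) (hk : k = 101 * r) (hC : 180 * C0 ≤ P ^ ε1) (h2 : 2 ≤ P ^ ε1) (hKX : KX = p1 + l) (hKX2 : KX ≤ 2 * r) (hl : r ≤ 2000 * l)
    (h0 : k - q0 ≤ r + u) (h1 : 100 * r - q1 ≤ p1 + u) (h3 : k - q2 ≤ KX + u) (q0k : q0 ≤ k) (q1k : q1 ≤ 100 * r) (q2k : q2 ≤ k) :
    C0 * P ^ (ε1 + ε1 * r + (4 * (s * KX + (k - KX)) + 4 * k - 50 * r - 7 * (k - KX - r)) - k + (s * q0 + (k - q0))) * 1 +
      C0 * 1 * (18 / P ^ k * (3 * P ^ (s * KX + (k - KX)) * (3 * P ^ (s * q1 + (100 * r - q1))) + P ^ (s * q2 + (k - q2)) * P ^ (k - KX - r))) ≤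
      P ^ (u - r / 2000 + (ε + 500 * ρ) * r) := by
  have hP0 : 0 < P := by linarith
  have hε10 : 0 < ε1 := by rw [hε1]; positivity
  have hs0 : 0 < s := by rw [hs]; linarith
  have m1 : s * KX ≤ s * (2 * r) := mul_le_mul_of_nonneg_left hKX2 hs0.le
  have m2 : s * q0 ≤ s * (101 * r) := mul_le_mul_of_nonneg_left (q0k.trans hk.le) hs0.le
  have m3 : s * q1 ≤ s * (100 * r) := mul_le_mul_of_nonneg_left q1k hs0.le
  have m4 : s * q2 ≤ s * (101 * r) := mul_le_mul_of_nonneg_left (q2k.trans hk.le) hs0.le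
  have m5 : ε1 ≤ ε1 * r := by
    have := mul_le_mul_of_nonneg_left hr hε10.le
    linarith
  have m6 : 0 ≤ s * r := by positivity
  obtain ⟨E, hE⟩ : ∃ E : ℝ, E = u - r / 2000 + 110 * (s * r) + 3 * (ε1 * r) := ⟨_, rfl⟩
  have hC0' : C0 ≤ P ^ ε1 := by linarith
  have hbad : C0 * P ^ (ε1 + ε1 * r + (4 * (s * KX + (k - KX)) + 4 * k - 50 * r - 7 * (k - KX - r)) - k + (s * q0 + (k - q0))) * 1 ≤ P ^ E := by
    rw [mul_one]
    refine (mul_le_mul_of_nonneg_right hC0' (Real.rpow_pos_of_pos hP0 _).le).trans ?_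
    rw [← Real.rpow_add hP0]
    refine Real.rpow_le_rpow_of_exponent_le hP ?_
    rw [hE]
    nlinarith
  have hN : 0 < P ^ k := Real.rpow_pos_of_pos hP0 _
  have hg1 : P ^ (s * KX + (k - KX)) * P ^ (s * q1 + (100 * r - q1)) / P ^ k ≤ P ^ (u - r / 2000 + 102 * (s * r)) := by
    rw [← Real.rpow_add hP0, ← Real.rpow_sub hP0]
    refine Real.rpow_le_rpow_of_exponent_le hP ?_
    nlinarith
  have hg2 : P ^ (s * q2 + (k - q2)) * P ^ (k - KX - r) / P ^ k ≤ P ^ (u - r / 2000 + 102 * (s * r)) := by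
    rw [← Real.rpow_add hP0, ← Real.rpow_sub hP0]
    refine Real.rpow_le_rpow_of_exponent_le hP ?_
    nlinarith
  have hgood : C0 * 1 * (18 / P ^ k * (3 * P ^ (s * KX + (k - KX)) * (3 * P ^ (s * q1 + (100 * r - q1))) + P ^ (s * q2 + (k - q2)) * P ^ (k - KX - r))) ≤ P ^ E := by
    have e1 : C0 * 1 * (18 / P ^ k * (3 * P ^ (s * KX + (k - KX)) * (3 * P ^ (s * q1 + (100 * r - q1))) + P ^ (s * q2 + (k - q2)) * P ^ (k - KX - r))) =
        C0 * (162 * (P ^ (s * KX + (k - KX)) * P ^ (s * q1 + (100 * r - q1)) / P ^ k) + 18 * (P ^ (s * q2 + (k - q2)) * P ^ (k - KX - r) / P ^ k)) := by ring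
    rw [e1]
    have hpos := (Real.rpow_pos_of_pos hP0 (u - r / 2000 + 102 * (s * r))).le
    calc C0 * (162 * (P ^ (s * KX + (k - KX)) * P ^ (s * q1 + (100 * r - q1)) / P ^ k) + 18 * (P ^ (s * q2 + (k - q2)) * P ^ (k - KX - r) / P ^ k))
        ≤ C0 * (162 * P ^ (u - r / 2000 + 102 * (s * r)) + 18 * P ^ (u - r / 2000 + 102 * (s * r))) := by
          refine mul_le_mul_of_nonneg_left ?_ (by linarith)
          linarith
      _ = (180 * C0) * P ^ (u - r / 2000 + 102 * (s * r)) := by ring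
      _ ≤ P ^ ε1 * P ^ (u - r / 2000 + 102 * (s * r)) := mul_le_mul_of_nonneg_right hC hpos
      _ = P ^ (ε1 + (u - r / 2000 + 102 * (s * r))) := (Real.rpow_add hP0 _ _).symm
      _ ≤ P ^ E := by
          refine Real.rpow_le_rpow_of_exponent_le hP ?_
          rw [hE]
          linarith
  calc _ ≤ P ^ E + P ^ E := add_le_add hbad hgood
    _ = 2 * P ^ E := by ring
    _ ≤ P ^ ε1 * P ^ E := mul_le_mul_of_nonneg_right h2 (Real.rpow_pos_of_pos hP0 _).le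
    _ = P ^ (ε1 + E) := (Real.rpow_add hP0 _ _).symm
    _ ≤ P ^ (u - r / 2000 + (ε + 500 * ρ) * r) := by
        refine Real.rpow_le_rpow_of_exponent_le hP ?_
        rw [hE, hs]
        have e2 : ε = 200 * ε1 := by rw [hε1]; ring
        rw [e2]
        have m7 : 0 ≤ ρ * r := by positivity
        have m8 : 0 ≤ ε1 * r := by positivity
        nlinarith

/-! ## The leaf inequality -/

theorem LWN_cel_union (N : ℕ) (C1 C2 : Finset ℕ) : cel N (C1 ∪ C2) = cel N C1 ∪ cel N C2 := by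
  ext v
  constructor
  · rintro ⟨c, hc, h⟩
    rcases Finset.mem_union.1 hc with hc | hc
    · exact Or.inl ⟨c, hc, h⟩
    · exact Or.inr ⟨c, hc, h⟩
  · rintro (⟨c, hc, h⟩ | ⟨c, hc, h⟩)
    · exact ⟨c, Finset.mem_union_left _ hc, h⟩
    · exact ⟨c, Finset.mem_union_right _ hc, h⟩

open Classical in
/-- the claim of row SUB with the constant `C0` -/
def LWN_S (C0 : ℝ) : Prop := ∀ (N1 N2 : ℕ) (C J : Finset ℕ) (Q1 Q2 : ℝ), 1 ≤ N1 → 1 ≤ N2 → (∀ c ∈ C, c < N1 * N2) → (∀ j ∈ J, j < N1 * N2) → 0 ≤ Q1 → 0 ≤ Q2 →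
  (∀ c1 ∈ C.image (fun c => c / N2), LQ (cel N2 ((C.filter fun c => c / N2 = c1).image fun c => c % N2)) (J.image fun j => j / N1) Q2) →
  (∀ d ∈ J.image (fun j => j / N1), LQ (cel N1 (C.image fun c => c / N2)) ((J.filter fun j => j / N1 = d).image fun j => j % N1) Q1) →
    LQ (cel (N1 * N2) C) J (C0 * Q1 * Q2)

theorem LWN_YC_lt {W : Set SL(2, ℝ)} {N0 k : ℕ} {p : ℕ → Bool} {h : SL(2, ℝ)} {c : ℕ} (hc : c ∈ YC W N0 k p h) : c < N0 ^ k := by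
  classical
  unfold YC at hc
  exact Finset.mem_range.1 (Finset.mem_filter.1 hc).1

theorem LWN_JN_lt {W : Set SL(2, ℝ)} {N0 k : ℕ} {q : ℕ → Bool} {g : SL(2, ℝ)} {j : ℕ} (hj : j ∈ JN W N0 k q g) : j < N0 ^ k := by
  classical
  unfold JN at hj
  exact Finset.mem_range.1 (Finset.mem_filter.1 hj).1

open Classical in
theorem LWN_bad (C0 : ℝ) (hSUB : LWN_S C0) (hHSB : HSB_stmt) (hMON : MON_stmt) (hJSP : JSP_stmt) (N0 k : ℕ) (hN0 : 2 ≤ N0) (W : Set SL(2, ℝ)) (q : ℕ → Bool) (g : SL(2, ℝ))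
    (Cb B : Finset ℕ) (hCb : ∀ c ∈ Cb, c < N0 ^ k * N0 ^ k) (hCB : ∀ c ∈ Cb, c / N0 ^ k ∈ B) (Bm J0 : ℝ) (hBm : (B.card : ℝ) ≤ Bm) (hJ0 : ∀ g' : SL(2, ℝ), ((JN W N0 k q g').card : ℝ) ≤ J0) :
    LQ (cel (N0 ^ k * N0 ^ k) Cb) (JN W N0 (k + k) q g) (C0 * (Bm / (N0 : ℝ) ^ k * J0) * 1) := by
  obtain ⟨hM1, -, -, -, hM5⟩ := hMON
  have hN : 1 ≤ N0 ^ k := Nat.one_le_pow _ _ (by omega)
  have hNR : ((N0 ^ k : ℕ) : ℝ) = (N0 : ℝ) ^ k := by push_cast; rfl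
  have hNpos : 0 < (N0 : ℝ) ^ k := by
    have : (0 : ℝ) < N0 := by exact_mod_cast (by omega : 0 < N0)
    positivity
  have hBm0 : 0 ≤ Bm := (Nat.cast_nonneg _).trans hBm
  have hJ00 : 0 ≤ J0 := (Nat.cast_nonneg _).trans (hJ0 1)
  have hJl : ∀ j ∈ JN W N0 (k + k) q g, j < N0 ^ k * N0 ^ k := by
    intro j hj
    have := LWN_JN_lt hj
    rwa [pow_add] at this
  refine hSUB (N0 ^ k) (N0 ^ k) Cb (JN W N0 (k + k) q g) _ 1 hN hN hCb hJl (by positivity) zero_le_one ?_ ?_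
  · intro c1 _
    refine (hHSB (N0 ^ k) _ _ hN ?_).2
    intro c hc
    obtain ⟨c', -, rfl⟩ := Finset.mem_image.1 hc
    exact Nat.mod_lt _ hN
  · intro d _
    have hlt : ∀ c ∈ Cb.image (fun c => c / N0 ^ k), c < N0 ^ k := by
      intro c hc
      obtain ⟨c', hc', rfl⟩ := Finset.mem_image.1 hc
      exact Nat.div_lt_of_lt_mul (hCb c' hc')
    have e := (hHSB (N0 ^ k) (Cb.image (fun c => c / N0 ^ k)) (((JN W N0 (k + k) q g).filter fun j => j / N0 ^ k = d).image fun j => j % N0 ^ k) hN hlt).1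
    obtain ⟨f1, f2, -, -⟩ := hM5 (N0 ^ k) (Cb.image (fun c => c / N0 ^ k)) (Cb.image (fun c => c / N0 ^ k)) hN hlt (Finset.Subset.refl _)
    refine hM1 _ _ _ _ _ _ f1 f1 f2 (Set.Subset.refl _) (Finset.Subset.refl _) (by positivity) ?_ e
    rw [hNR]
    have c1 : ((Cb.image (fun c => c / N0 ^ k)).card : ℝ) ≤ Bm := by
      refine le_trans ?_ hBm
      have : (Cb.image (fun c => c / N0 ^ k)).card ≤ B.card := by
        refine Finset.card_le_card ?_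
        intro c hc
        obtain ⟨c', hc', rfl⟩ := Finset.mem_image.1 hc
        exact hCB c' hc'
      exact_mod_cast this
    have c2 : (((((JN W N0 (k + k) q g).filter fun j => j / N0 ^ k = d).image fun j => j % N0 ^ k)).card : ℝ) ≤ J0 := by
      refine le_trans ?_ (hJ0 (g * nM ((d : ℝ) / N0 ^ k) * aM (-(k * Real.log N0))))
      have : (((JN W N0 (k + k) q g).filter fun j => j / N0 ^ k = d).image fun j => j % N0 ^ k).card ≤ (JN W N0 k q (g * nM ((d : ℝ) / N0 ^ k) * aM (-(k * Real.log N0)))).card := by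
        refine Finset.card_le_card ?_
        intro c hc
        obtain ⟨j, hj, rfl⟩ := Finset.mem_image.1 hc
        obtain ⟨hj1, hj2⟩ := Finset.mem_filter.1 hj
        have h2 := (hJSP W N0 k k q g j (by omega) hj1).2
        rw [hj2] at h2
        exact h2
      exact_mod_cast this
    gcongr

open Classical in
theorem LWN_goodpart (C0 : ℝ) (hSUB : LWN_S C0) (hHSB : HSB_stmt) (hMON : MON_stmt) (hSCR : SCR_stmt) (hYSP : YSP_stmt) (hJSP : JSP_stmt) (hUZC : UZC_stmt)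
    (Γ : Subgroup SL(2, ℝ)) (b : ℝ) (hb : 0 < b) (hb2 : b ≤ 1 / 200) (N0 k r : ℕ) (hN0 : 10 ≤ N0) (hk : k = 100 * r + r) (A : Finset SL(2, ℝ)) (W W2 : Set SL(2, ℝ))
    (hW : W ⊆ FW Γ A b (1 / N0)) (hW2 : W2 = FW Γ A (2 * b) (2 * (1 + 10 / b) / N0)) (Z : Finset SL(2, ℝ))
    (hZ : ∀ g : SL(2, ℝ), ∃ y ∈ Z, ∃ (γ : Γ) (w τ x : ℝ), |w| ≤ b / 1000 ∧ |τ| ≤ b / 1000 ∧ |x| ≤ b / 1000 ∧ (γ : SL(2, ℝ)) * g = y * lM w * aM τ * nM x)
    (p q : ℕ → Bool) (h g : SL(2, ℝ)) (B Cg : Finset ℕ) (hCg : Cg ⊆ YC W N0 (k + k) p h) (hCB : ∀ c ∈ Cg, c / N0 ^ k ∉ B) (D1 J2 Um G : ℝ) (hG : 0 ≤ G)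
    (hD1 : ∀ g' : SL(2, ℝ), ((JN W N0 (100 * r) (sh k q) g').card : ℝ) ≤ D1) (hJ2 : ∀ g' : SL(2, ℝ), ((JN W N0 k (sh k q) g').card : ℝ) ≤ J2)
    (hUm : ∀ z ∈ Z, ((Uz W2 N0 k (sh k p) z).card : ℝ) ≤ Um)
    (hgood : ∀ c < N0 ^ k, c ∉ B → ∀ z ∈ Z, ∀ (γ : Γ) (w τ x : ℝ), |w| ≤ 1 / 1000 → |τ| ≤ 1 / 1000 → |x| ≤ 1 / 1000 →
      (γ : SL(2, ℝ)) * (h * lM (4 * ((c : ℝ) / N0 ^ k)) * aM (k * Real.log N0)) = z * lM w * aM τ * nM x →
      ∀ t : ℝ, (N0 : ℝ) ^ (100 * r) / 2 ≤ |t| → |t| ≤ 4 * (N0 : ℝ) ^ k → ‖EU (N0 ^ k) (Uz W2 N0 k (sh k p) z) t (4 * XX w τ x)‖ ≤ G) :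
    LQ (cel (N0 ^ k * N0 ^ k) Cg) (JN W N0 (k + k) q g) (C0 * 1 * (18 / (N0 : ℝ) ^ k * (Um * (3 * D1) + J2 * G))) := by
  obtain ⟨hM1, -, -, -, hM5⟩ := hMON
  have hN : 1 ≤ N0 ^ k := Nat.one_le_pow _ _ (by omega)
  have hM : 1 ≤ N0 ^ (100 * r) := Nat.one_le_pow _ _ (by omega)
  have hNR : ((N0 ^ k : ℕ) : ℝ) = (N0 : ℝ) ^ k := by push_cast; rfl
  have hMR : ((N0 ^ (100 * r) : ℕ) : ℝ) = (N0 : ℝ) ^ (100 * r) := by push_cast; rfl
  have hN0p : (0 : ℝ) < N0 := by exact_mod_cast (by omega : 0 < N0)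
  have hD10 : 0 ≤ D1 := (Nat.cast_nonneg _).trans (hD1 1)
  have hJ20 : 0 ≤ J2 := (Nat.cast_nonneg _).trans (hJ2 1)
  have hUm0 : 0 ≤ Um := by
    obtain ⟨z, hz, -⟩ := hZ 1
    exact (Nat.cast_nonneg _).trans (hUm z hz)
  have hJl : ∀ j ∈ JN W N0 (k + k) q g, j < N0 ^ k * N0 ^ k := by
    intro j hj
    have := LWN_JN_lt hj
    rwa [pow_add] at this
  have hCl : ∀ c ∈ Cg, c < N0 ^ k * N0 ^ k := by
    intro c hc
    have := LWN_YC_lt (hCg hc)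
    rwa [pow_add] at this
  -- the coarse digits of `J`
  have hJc : ∀ j ∈ (JN W N0 (k + k) q g).image (fun j => j / N0 ^ k), j ∈ JN W N0 k (sh k q) g := by
    intro j hj
    obtain ⟨j', hj', rfl⟩ := Finset.mem_image.1 hj
    exact (hJSP W N0 k k q g j' (by omega) hj').1
  refine hSUB (N0 ^ k) (N0 ^ k) Cg (JN W N0 (k + k) q g) 1 _ hN hN hCl hJl zero_le_one (by positivity) ?_ ?_
  · intro c1 hc1
    obtain ⟨c0, hc0, hc01⟩ := Finset.mem_image.1 hc1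
    have hc1B : c1 ∉ B := by
      rw [← hc01]
      exact hCB c0 hc0
    have hc1N : c1 < N0 ^ k := by
      rw [← hc01]
      exact Nat.div_lt_of_lt_mul (hCl c0 hc0)
    obtain ⟨z, hz, γ, w, τ, x, hw, hτ, hx, hγ⟩ := hZ (h * lM (4 * ((c1 : ℝ) / N0 ^ k)) * aM (k * Real.log N0))
    have hw' : |w| ≤ 1 / 1000 := by linarith
    have hτ' : |τ| ≤ 1 / 1000 := by linarith
    have hx' : |x| ≤ 1 / 1000 := by linarith
    have hN0R : (1 : ℝ) ≤ N0 := by exact_mod_cast (by omega : 1 ≤ N0)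
    have hcov := hUZC Γ b 1 w τ x N0 k A W W2 (sh k p) (h * lM (4 * ((c1 : ℝ) / N0 ^ k)) * aM (k * Real.log N0)) z γ hb hb2 le_rfl hN0R hN0 hW hW2 hw hτ hx hγ
    have hCs : ∀ c ∈ (Cg.filter fun c => c / N0 ^ k = c1).image (fun c => c % N0 ^ k), c ∈ YC W N0 k (sh k p) (h * lM (4 * ((c1 : ℝ) / N0 ^ k)) * aM (k * Real.log N0)) := by
      intro c hc
      obtain ⟨c', hc', rfl⟩ := Finset.mem_image.1 hc
      obtain ⟨hc2, hc3⟩ := Finset.mem_filter.1 hc'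
      have h2 := (hYSP W N0 k k p h c' (by omega) (hCg hc2)).2
      rw [hc3] at h2
      exact h2
    have hCsl : ∀ c ∈ (Cg.filter fun c => c / N0 ^ k = c1).image (fun c => c % N0 ^ k), c < N0 ^ k := fun c hc => LWN_YC_lt (hCs c hc)
    have e := LWN_good hSCR (N0 ^ k) ((Cg.filter fun c => c / N0 ^ k = c1).image (fun c => c % N0 ^ k)) ((JN W N0 (k + k) q g).image (fun j => j / N0 ^ k))
      (Uz W2 N0 k (sh k p) z) w τ x ((N0 ^ (100 * r) : ℕ) : ℝ) (3 * D1) G hN hw' hτ' hx' (by positivity) hG hCsl (fun j hj => LWN_JN_lt (hJc j hj))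
      (fun c hc => hcov c (hCs c hc)) ?_ ?_
    · obtain ⟨f1, f2, -, -⟩ := hM5 (N0 ^ k) _ _ hN hCsl (Finset.Subset.refl _)
      refine hM1 _ _ _ _ _ _ f1 f1 f2 (Set.Subset.refl _) (Finset.Subset.refl _) (by positivity) ?_ e
      rw [hNR]
      have c1' := hUm z hz
      have c2 : ((((JN W N0 (k + k) q g).image (fun j => j / N0 ^ k))).card : ℝ) ≤ J2 := by
        refine le_trans ?_ (hJ2 g)
        have : ((JN W N0 (k + k) q g).image (fun j => j / N0 ^ k)).card ≤ (JN W N0 k (sh k q) g).card := Finset.card_le_card hJc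
        exact_mod_cast this
      gcongr
    · intro j _ T hT hj
      refine LWN_D (N0 ^ (100 * r)) hM (JN W N0 k (sh k q) g) T D1 hD10 ?_ (fun a ha => hJc a (hT ha)) j hj
      intro e
      refine ⟨JN W N0 (100 * r) (sh k q) (g * nM ((e : ℝ) / N0 ^ r) * aM (-(r * Real.log N0))), hD1 _, ?_⟩
      intro a ha hae
      rw [hk] at ha
      have h2 := (hJSP W N0 (100 * r) r (sh (100 * r + r) q) g a (by omega) ha).2
      rw [hae] at h2
      rw [hk]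
      exact h2
    · intro t ht1 ht2
      rw [hMR] at ht1
      rw [hNR] at ht2
      exact hgood c1 hc1N hc1B z hz γ w τ x hw' hτ' hx' hγ t ht1 ht2
  · intro d _
    refine (hHSB (N0 ^ k) _ _ hN ?_).2
    intro c hc
    obtain ⟨c', hc', rfl⟩ := Finset.mem_image.1 hc
    exact Nat.div_lt_of_lt_mul (hCl c' hc')

theorem LWN_Uz_le {W : Set SL(2, ℝ)} {N0 k : ℕ} {p : ℕ → Bool} {z : SL(2, ℝ)} {κ : ℤ} (h : κ ∈ Uz W N0 k p z) : |κ| ≤ 2 * ((N0 ^ k : ℕ) : ℤ) := by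
  classical
  unfold Uz at h
  obtain ⟨h1, h2⟩ := Finset.mem_Ico.1 (Finset.mem_filter.1 h).1
  obtain ⟨M, hM⟩ : ∃ M : ℕ, M = N0 ^ k := ⟨_, rfl⟩
  rw [← hM] at h1 h2 ⊢
  rw [abs_le]
  constructor <;> omega

/-- the number of cells, as a power of `P` -/
theorem LWN_card {P s C a y : ℝ} (hP : 1 ≤ P) (h0 : 0 ≤ C * a) (h : C * a ≤ P ^ s) (n m : ℕ) (hn : n ≤ m) (hy : y ≤ (C * a) ^ n * P ^ (m - n)) :
    y ≤ P ^ (s * n + ((m : ℝ) - n)) := by
  refine hy.trans ?_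
  have h1 := LWN_pw hP h0 h n (m - n)
  rwa [Nat.cast_sub hn] at h1

open Classical in
theorem LWN_small (hSUB : SUB_stmt) (hHSB : HSB_stmt) (hMON : MON_stmt) (hSCR : SCR_stmt) (hYSP : YSP_stmt) (hJSP : JSP_stmt) (hCNB : CNB_stmt)
    (hUZC : UZC_stmt) (hUZN : UZN_stmt) (hBCN : BCN_stmt) (hNET : IR.NET_stmt) (Γ : Subgroup SL(2, ℝ)) (hΓ : QU.SurfaceGroup Γ) (b ε : ℝ) (hb : 0 < b) (hb2 : b ≤ 1 / 200)
    (hε : 0 < ε) (hε2 : ε ≤ 1) : ∃ n1 : ℕ, ∀ (N0 : ℕ) (ρ : ℝ) (A : Finset SL(2, ℝ)) (W : Set SL(2, ℝ)), n1 ≤ N0 → 0 ≤ ρ → ρ ≤ 1 / 1000 → (A.card : ℝ) ≤ (N0 : ℝ) ^ ρ → W ⊆ FW Γ A b (1 / N0) →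
    ∀ (p q : ℕ → Bool) (r : ℕ), Win p 0 r → PQ W N0 (202 * r) p q ((N0 : ℝ) ^ ((UU p q 0 (202 * r) : ℝ) - r / 2000 + (ε + 500 * ρ) * r)) := by
  obtain ⟨C0, hC0, hSUB⟩ := hSUB
  have hSUB' : LWN_S C0 := hSUB
  obtain ⟨C1, hC1, hCNB⟩ := hCNB Γ hΓ
  obtain ⟨C2, hC2, hUZN⟩ := hUZN Γ hΓ
  obtain ⟨C3, hC3, hBCN⟩ := hBCN Γ hΓ
  obtain ⟨Z, hZ⟩ := hNET Γ (b / 1000) hΓ (by positivity)
  obtain ⟨hM1, hM2, -, -, hM5⟩ := id hMON
  obtain ⟨ε1, hε1⟩ : ∃ ε1 : ℝ, ε1 = ε / 200 := ⟨_, rfl⟩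
  have hε10 : 0 < ε1 := by rw [hε1]; positivity
  obtain ⟨K2, hK2⟩ : ∃ K2 : ℝ, K2 = 2 * (1 + 10 / b) := ⟨_, rfl⟩
  have hK21 : 1 ≤ K2 := by
    have : 0 < 10 / b := by positivity
    rw [hK2]
    linarith
  have t1 : Tendsto (fun N : ℕ => (N : ℝ) ^ ε1) atTop atTop := (tendsto_rpow_atTop hε10).comp tendsto_natCast_atTop_atTop
  have t2 : Tendsto (fun N : ℕ => Real.log (N : ℝ)) atTop atTop := Real.tendsto_log_atTop.comp tendsto_natCast_atTop_atTop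
  have t3 : Tendsto (fun N : ℕ => (N : ℝ)) atTop atTop := tendsto_natCast_atTop_atTop
  obtain ⟨n1, hn1⟩ := eventually_atTop.1 ((t1.eventually_ge_atTop (max (max C1 (C2 * K2)) (max (324 * (C3 * Z.card)) (max (180 * C0) 2)))).and
    ((t2.eventually_ge_atTop (6 * 202 ^ 2 / ε1 ^ 3)).and (t3.eventually_ge_atTop (max 10 K2))))
  refine ⟨n1, ?_⟩
  intro N0 ρ A W hN0 hρ hρ1 hA hW p q r hwin
  obtain ⟨g1, g2, g3⟩ := hn1 N0 hN0
  obtain ⟨P, hPd⟩ : ∃ P : ℝ, P = (N0 : ℝ) := ⟨_, rfl⟩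
  have hP10 : 10 ≤ P := by rw [hPd]; exact (le_max_left _ _).trans g3
  have hP2 : 2 ≤ P := by linarith
  have hP1 : 1 ≤ P := by linarith
  have hP0 : 0 < P := by linarith
  have hPK : K2 ≤ P := by rw [hPd]; exact (le_max_right _ _).trans g3
  have hN010 : 10 ≤ N0 := by
    have : (10 : ℝ) ≤ N0 := by rw [← hPd]; exact hP10
    exact_mod_cast this
  have hN02 : 2 ≤ N0 := by omega
  rw [← hPd] at g1 g2 hA
  have gC1 : C1 ≤ P ^ ε1 := (le_max_left _ _).trans ((le_max_left _ _).trans g1)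
  have gC2 : C2 * K2 ≤ P ^ ε1 := (le_max_right _ _).trans ((le_max_left _ _).trans g1)
  have gC3 : 324 * (C3 * Z.card) ≤ P ^ ε1 := (le_max_left _ _).trans ((le_max_right _ _).trans g1)
  have gC0 : 180 * C0 ≤ P ^ ε1 := (le_max_left _ _).trans ((le_max_right _ _).trans ((le_max_right _ _).trans g1))
  have g22 : 2 ≤ P ^ ε1 := (le_max_right _ _).trans ((le_max_right _ _).trans ((le_max_right _ _).trans g1))
  obtain ⟨s, hs⟩ : ∃ s : ℝ, s = ρ + ε1 := ⟨_, rfl⟩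
  have hA0 : (0 : ℝ) ≤ A.card := Nat.cast_nonneg _
  have hx1 : C1 * 1 * A.card ≤ P ^ s := by
    rw [mul_one, hs, add_comm, Real.rpow_add hP0]
    exact mul_le_mul gC1 hA hA0 (Real.rpow_pos_of_pos hP0 _).le
  have hx2 : C2 * K2 * A.card ≤ P ^ s := by
    rw [hs, add_comm, Real.rpow_add hP0]
    exact mul_le_mul gC2 hA hA0 (Real.rpow_pos_of_pos hP0 _).le
  -- the labels
  have hr := hwin.r1
  have w1 := hwin.w1
  have w2 := hwin.w2
  have w3 := hwin.w3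
  rw [zero_add] at w1
  rw [zero_add, zero_add] at w2 w3
  obtain ⟨k, hk⟩ : ∃ k : ℕ, k = 101 * r := ⟨_, rfl⟩
  have hk1 : k + 100 * r = 201 * r := by omega
  have hk2 : k + k = 202 * r := by omega
  have a1 : Kc p k (k + k) = Kc p k (k + 100 * r) + Kc p (k + 100 * r) (k + k) := LWN_Kc_add p (by omega) (by omega)
  have a2 : Kc p (k + 100 * r) (k + k) ≤ (k + k) - (k + 100 * r) := LWN_Kc_le p _ _
  have a3 : Kc p k (k + 100 * r) ≤ r := by rw [hk1, hk]; exact w2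
  have a4 : r ≤ 2000 * Kc p (k + 100 * r) (k + k) := by rw [hk1, hk2]; exact w3
  have a5 : Kc p 0 k ≤ r := by rw [hk]; exact w1
  have u0 := LWN_U p q 0 k
  have u1 := LWN_U p q k (k + 100 * r)
  have u2 := LWN_U p q k (k + k)
  have v0 : UU p q 0 k ≤ UU p q 0 (k + k) := LWN_UU_mono p q le_rfl (by omega)
  have v1 : UU p q k (k + 100 * r) ≤ UU p q 0 (k + k) := LWN_UU_mono p q (Nat.zero_le _) (by omega)
  have v2 : UU p q k (k + k) ≤ UU p q 0 (k + k) := LWN_UU_mono p q (Nat.zero_le _) le_rfl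
  have l0 := LWN_Kc_le q 0 k
  have l1 := LWN_Kc_le q k (k + 100 * r)
  have l2 := LWN_Kc_le q k (k + k)
  obtain ⟨KX, hKX⟩ : ∃ n, n = Kc p k (k + k) := ⟨_, rfl⟩
  obtain ⟨p1, hp1⟩ : ∃ n, n = Kc p k (k + 100 * r) := ⟨_, rfl⟩
  obtain ⟨l, hl⟩ : ∃ n, n = Kc p (k + 100 * r) (k + k) := ⟨_, rfl⟩
  obtain ⟨q0, hq0⟩ : ∃ n, n = Kc q 0 k := ⟨_, rfl⟩
  obtain ⟨q1, hq1⟩ : ∃ n, n = Kc q k (k + 100 * r) := ⟨_, rfl⟩
  obtain ⟨q2, hq2⟩ : ∃ n, n = Kc q k (k + k) := ⟨_, rfl⟩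
  obtain ⟨u, hu⟩ : ∃ n, n = UU p q 0 (k + k) := ⟨_, rfl⟩
  rw [← hKX, ← hp1, ← hl] at a1
  rw [← hl] at a2 a4
  rw [← hp1] at a3
  rw [← hq0] at u0 l0
  rw [← hq1, ← hp1] at u1
  rw [← hq1] at l1
  rw [← hq2, ← hKX] at u2
  rw [← hq2] at l2
  rw [← hu] at v0 v1 v2
  have hKX2 : KX ≤ 2 * r := by omega
  -- the counting
  have cJ : ∀ (n : ℕ) (q' : ℕ → Bool) (g' : SL(2, ℝ)), ((JN W N0 n q' g').card : ℝ) ≤ P ^ (s * (Kc q' 0 n : ℕ) + ((n : ℝ) - (Kc q' 0 n : ℕ))) := by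
    intro n q' g'
    have h1 := (hCNB b 1 N0 A W hb (by linarith) le_rfl (by rw [← hPd]; exact hP1) hN02 hW n q' g').2
    rw [← hPd] at h1
    refine LWN_card hP1 (by positivity) hx1 (Kc q' 0 n) n ?_ h1
    have := LWN_Kc_le q' 0 n
    omega
  obtain ⟨W2, hW2⟩ : ∃ W2 : Set SL(2, ℝ), W2 = FW Γ A (2 * b) (2 * (1 + 10 / b) / N0) := ⟨_, rfl⟩
  have cU : ∀ z : SL(2, ℝ), ((Uz W2 N0 k (sh k p) z).card : ℝ) ≤ 3 * P ^ (s * KX + ((k : ℝ) - KX)) := by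
    intro z
    have h1 := hUZN (2 * b) K2 N0 A W2 (by positivity) (by linarith) hK21 (by rw [← hPd]; exact hPK) hN02 (by rw [hW2, hK2]) k (sh k p) z
    have e1 : Kc (sh k p) 0 k = KX := by rw [LWN_Kc_sh, hKX]
    rw [e1, ← hPd] at h1
    refine h1.trans (mul_le_mul_of_nonneg_left ?_ (by norm_num))
    exact LWN_card hP1 (by positivity) hx2 KX k (by omega) le_rfl
  intro h g
  -- the bad digits
  obtain ⟨G, hG⟩ : ∃ G : ℝ, G = P ^ ((k : ℝ) - KX - r) := ⟨_, rfl⟩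
  have hG0 : 0 < G := by rw [hG]; exact Real.rpow_pos_of_pos hP0 _
  obtain ⟨B, hB⟩ : ∃ B : Finset ℕ, B = (Finset.range (N0 ^ k)).filter (fun c : ℕ => ∃ z ∈ Z, ∃ (γ : Γ) (w τ x : ℝ), |w| ≤ 1 / 1000 ∧ |τ| ≤ 1 / 1000 ∧ |x| ≤ 1 / 1000 ∧
    (γ : SL(2, ℝ)) * (h * lM (4 * ((c : ℝ) / N0 ^ k)) * aM (k * Real.log N0)) = z * lM w * aM τ * nM x ∧
    ∃ t : ℝ, (N0 : ℝ) ^ (100 * r) / 2 ≤ |t| ∧ |t| ≤ 4 * (N0 : ℝ) ^ k ∧ G ≤ ‖EU (N0 ^ k) (Uz W2 N0 k (sh k p) z) t (4 * XX w τ x)‖) := ⟨_, rfl⟩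
  have hPk : (N0 : ℝ) ^ k = P ^ (k : ℝ) := by rw [← hPd, Real.rpow_natCast]
  have hH : (N0 : ℝ) ^ (100 * r) = P ^ (100 * (r : ℝ)) := by
    rw [← hPd, ← Real.rpow_natCast]
    push_cast
    rfl
  have hs2 : s * KX ≤ 2 * (s * r) := by
    have h0 : (KX : ℝ) ≤ 2 * r := by exact_mod_cast hKX2
    have h1 : 0 ≤ s := by rw [hs]; linarith
    have := mul_le_mul_of_nonneg_left h0 h1
    linarith
  have hr1 : (1 : ℝ) ≤ r := by exact_mod_cast hr
  have hUmGH : 2 * (3 * P ^ (s * KX + ((k : ℝ) - KX))) ≤ G * (N0 : ℝ) ^ (100 * r) := by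
    rw [hG, hH, ← Real.rpow_add hP0]
    have h6 : (6 : ℝ) ≤ P ^ ε1 := by linarith
    have h7 := (Real.rpow_pos_of_pos hP0 (s * KX + ((k : ℝ) - KX))).le
    calc 2 * (3 * P ^ (s * KX + ((k : ℝ) - KX))) = 6 * P ^ (s * KX + ((k : ℝ) - KX)) := by ring
      _ ≤ P ^ ε1 * P ^ (s * KX + ((k : ℝ) - KX)) := mul_le_mul_of_nonneg_right h6 h7
      _ = P ^ (ε1 + (s * KX + ((k : ℝ) - KX))) := (Real.rpow_add hP0 _ _).symm
      _ ≤ P ^ ((k : ℝ) - KX - r + 100 * (r : ℝ)) := by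
          refine Real.rpow_le_rpow_of_exponent_le hP1 ?_
          have h8 : s ≤ 1 := by rw [hs, hε1]; linarith
          have h9 : s * r ≤ 1 * r := mul_le_mul_of_nonneg_right h8 (by linarith)
          have h10 : ε1 ≤ 1 := by rw [hε1]; linarith
          linarith
  have hBcard : (B.card : ℝ) ≤ P ^ (ε1 + ε1 * r + (4 * (s * KX + ((k : ℝ) - KX)) + 4 * k - 50 * r - 7 * ((k : ℝ) - KX - r))) := by
    have h1 := hBCN Z (fun z => Uz W2 N0 k (sh k p) z) N0 k h (3 * P ^ (s * KX + ((k : ℝ) - KX))) ((N0 : ℝ) ^ (100 * r)) G B hN02 ?_ ?_ hG0 (by positivity) hUmGH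
      (fun z _ => ⟨cU z, fun κ hκ => LWN_Uz_le hκ⟩) ?_
    · rw [hPk, hH, hG] at h1
      refine LWN_badnum P C3 Z.card ε1 s r k KX ((1 + Real.log (P ^ (k : ℝ))) ^ 2) B.card hP1 (by positivity) gC3 ?_ h1
      have h2 := LWN_log ε1 hε10 P hP2 g2 r hr
      rw [← hk] at h2
      rw [Real.rpow_natCast]
      have h3 : 1 ≤ P ^ k := one_le_pow₀ hP1
      have h4 : Real.log (P ^ k) ≤ Real.log (2 + P ^ k) := Real.log_le_log (by linarith) (by linarith)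
      have h5 : 0 ≤ Real.log (P ^ k) := Real.log_nonneg h3
      have h6 : 1 ≤ Real.log (2 + P ^ k) := by
        have h7 : Real.log 3 ≤ Real.log (2 + P ^ k) := Real.log_le_log (by norm_num) (by linarith)
        have h8 : 1 ≤ Real.log 3 := by
          rw [Real.le_log_iff_exp_le (by norm_num)]
          have := Real.exp_one_lt_d9
          linarith
        linarith
      have h9 : (1 + Real.log (P ^ k)) ^ 2 ≤ (2 * Real.log (2 + P ^ k)) ^ 2 := pow_le_pow_left₀ (by linarith) (by linarith) 2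
      calc (1 + Real.log (P ^ k)) ^ 2 ≤ (2 * Real.log (2 + P ^ k)) ^ 2 := h9
        _ = 4 * Real.log (2 + P ^ k) ^ 2 := by ring
        _ ≤ 4 * P ^ (ε1 * r) := by linarith
    · rw [← hPd]
      calc (2 : ℝ) ≤ P := hP2
        _ = P ^ 1 := (pow_one P).symm
        _ ≤ P ^ (100 * r) := pow_le_pow_right₀ hP1 (by omega)
    · rw [← hPd]
      exact pow_le_pow_right₀ hP1 (by omega)
    · intro c hc
      rw [hB, Finset.mem_filter, Finset.mem_range] at hc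
      obtain ⟨hc1, z, hz, γ, w, τ, x, hw, hτ, hx, hγ, t, ht1, ht2, ht3⟩ := hc
      exact ⟨hc1, z, hz, γ, w, τ, x, hw, hτ, hx, hγ, t, ht1, ht2, ht3⟩
  -- the two parts
  have bad := LWN_bad C0 hSUB' hHSB hMON hJSP N0 k hN02 W q g ((YC W N0 (k + k) p h).filter fun c => c / N0 ^ k ∈ B) B
    (fun c hc => by
      have := LWN_YC_lt (Finset.mem_filter.1 hc).1
      rwa [pow_add] at this)
    (fun c hc => (Finset.mem_filter.1 hc).2) _ _ hBcard (fun g' => cJ k q g')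
  have good := LWN_goodpart C0 hSUB' hHSB hMON hSCR hYSP hJSP hUZC Γ b hb hb2 N0 k r hN010 (by omega) A W W2 hW hW2 Z hZ p q h g B
    ((YC W N0 (k + k) p h).filter fun c => ¬ c / N0 ^ k ∈ B) (Finset.filter_subset _ _) (fun c hc => (Finset.mem_filter.1 hc).2)
    (P ^ (s * q1 + (100 * (r : ℝ) - q1))) (P ^ (s * q2 + ((k : ℝ) - q2))) (3 * P ^ (s * KX + ((k : ℝ) - KX))) G hG0.le
    (fun g' => by
      have h1 := cJ (100 * r) (sh k q) g'
      rw [LWN_Kc_sh, ← hq1] at h1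
      push_cast at h1
      exact h1)
    (fun g' => by
      have h1 := cJ k (sh k q) g'
      rw [LWN_Kc_sh, ← hq2] at h1
      exact h1)
    (fun z _ => cU z)
    (fun c hc hcB z hz γ w τ x hw hτ hx hγ t ht1 ht2 => by
      by_contra hcon
      refine hcB ?_
      rw [hB, Finset.mem_filter, Finset.mem_range]
      exact ⟨hc, z, hz, γ, w, τ, x, hw, hτ, hx, hγ, t, ht1, ht2, (not_le.1 hcon).le⟩)
  have hN : 1 ≤ N0 ^ k * N0 ^ k := Nat.one_le_iff_ne_zero.2 (by positivity)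
  have hCl : ∀ c ∈ YC W N0 (k + k) p h, c < N0 ^ k * N0 ^ k := by
    intro c hc
    have := LWN_YC_lt hc
    rwa [pow_add] at this
  obtain ⟨b1, b2, -, -⟩ := hM5 (N0 ^ k * N0 ^ k) ((YC W N0 (k + k) p h).filter fun c => c / N0 ^ k ∈ B) _ hN (fun c hc => hCl c (Finset.mem_filter.1 hc).1) (Finset.Subset.refl _)
  obtain ⟨b3, b4, -, -⟩ := hM5 (N0 ^ k * N0 ^ k) ((YC W N0 (k + k) p h).filter fun c => ¬ c / N0 ^ k ∈ B) _ hN (fun c hc => hCl c (Finset.mem_filter.1 hc).1) (Finset.Subset.refl _)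
  have all := hM2 _ _ _ _ _ b1 b3 b2 b4 bad good
  rw [← LWN_cel_union, Finset.filter_union_filter_not_eq] at all
  obtain ⟨b5, b6, -, -⟩ := hM5 (N0 ^ k * N0 ^ k) (YC W N0 (k + k) p h) _ hN hCl (Finset.Subset.refl _)
  have fin : LQ (cel (N0 ^ k * N0 ^ k) (YC W N0 (k + k) p h)) (JN W N0 (k + k) q g) (P ^ ((u : ℝ) - r / 2000 + (ε + 500 * ρ) * r)) := by
    refine hM1 _ _ _ _ _ _ b5 b5 b6 (Set.Subset.refl _) (Finset.Subset.refl _) ?_ ?_ all
    · rw [hPk]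
      positivity
    · have f1 : k - 0 ≤ q0 + (Kc p 0 k + UU p q 0 k) := u0
      have f2 : (k : ℝ) - q0 ≤ r + u := by
        have : k ≤ q0 + (r + u) := by omega
        have h1 : (k : ℝ) ≤ q0 + (r + u) := by exact_mod_cast this
        linarith
      have f3 : 100 * (r : ℝ) - q1 ≤ p1 + u := by
        have : 100 * r ≤ q1 + (p1 + u) := by omega
        have h1 : 100 * (r : ℝ) ≤ q1 + (p1 + u) := by exact_mod_cast this
        linarith
      have f4 : (k : ℝ) - q2 ≤ KX + u := by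
        have : k ≤ q2 + (KX + u) := by omega
        have h1 : (k : ℝ) ≤ q2 + (KX + u) := by exact_mod_cast this
        linarith
      have f5 : (q0 : ℝ) ≤ k := by
        have : q0 ≤ k := by omega
        exact_mod_cast this
      have f6 : (q1 : ℝ) ≤ 100 * (r : ℝ) := by
        have : q1 ≤ 100 * r := by omega
        exact_mod_cast this
      have f7 : (q2 : ℝ) ≤ k := by
        have : q2 ≤ k := by omega
        exact_mod_cast this
      have num := LWN_num P C0 ε ε1 ρ s r k KX q0 q1 q2 p1 l u hP1 hC0 hε1 hs hρ hε (by exact_mod_cast hr) (by rw [hk]; push_cast; ring) gC0 g22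
        (by exact_mod_cast a1) (by exact_mod_cast hKX2) (by exact_mod_cast a4) f2 f3 f4 f5 f6 f7
      refine le_trans (le_of_eq ?_) num
      have e2 : P ^ (ε1 + ε1 * r + (4 * (s * KX + ((k : ℝ) - KX)) + 4 * k - 50 * r - 7 * ((k : ℝ) - KX - r)) - k + (s * q0 + ((k : ℝ) - q0))) =
          P ^ (ε1 + ε1 * r + (4 * (s * KX + ((k : ℝ) - KX)) + 4 * k - 50 * r - 7 * ((k : ℝ) - KX - r))) / P ^ (k : ℝ) * P ^ (s * q0 + ((k : ℝ) - q0)) := by
        rw [Real.rpow_add hP0, Real.rpow_sub hP0]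
      rw [e2, hPk, hG, ← hq0]
  rw [← hPd, ← hk2, ← hu, pow_add]
  exact fin

theorem LWN_proof (hSUB : SUB_stmt) (hHSB : HSB_stmt) (hMON : MON_stmt) (hSCR : SCR_stmt) (hYSP : YSP_stmt) (hJSP : JSP_stmt) (hCNB : CNB_stmt)
    (hUZC : UZC_stmt) (hUZN : UZN_stmt) (hBCN : BCN_stmt) (hNET : IR.NET_stmt) : LWN_stmt := by
  intro Γ hΓ b ε hb hb2 hε
  obtain ⟨n1, hn1⟩ := LWN_small hSUB hHSB hMON hSCR hYSP hJSP hCNB hUZC hUZN hBCN hNET Γ hΓ b (min ε 1) hb hb2 (lt_min hε one_pos) (min_le_right _ _)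
  refine ⟨max n1 1, ?_⟩
  intro N0 ρ A W hN0 hρ hρ1 hA hW p q r hwin h g a
  have h1 := hn1 N0 ρ A W ((le_max_left _ _).trans hN0) hρ hρ1 hA hW p q r hwin h g a
  refine h1.trans (mul_le_mul_of_nonneg_right ?_ (Finset.sum_nonneg fun _ _ => sq_nonneg _))
  have hN1 : (1 : ℝ) ≤ N0 := by exact_mod_cast (le_max_right _ _).trans hN0
  refine Real.rpow_le_rpow_of_exponent_le hN1 ?_
  have h2 : (min ε 1 + 500 * ρ) * r ≤ (ε + 500 * ρ) * r := mul_le_mul_of_nonneg_right (by linarith [min_le_left ε 1]) (Nat.cast_nonneg _)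
  linarith

end

end Pool.Agent.T1
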