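import Pool.Agent.helper62.RS.All
import Pool.Agent.helper62.QU.All
import Pool.Agent.helper2.IR.CTF
import Pool.Agent.helper31.IR.CTB
import Pool.Agent.helper71.IR.NET
import Pool.Agent.helper52.T1.SpecS
import Pool.Agent.helper65.T1.AllN
import Pool.Agent.helper21.T1.MON
import Pool.Agent.helper69.T1.HSB
import Pool.Agent.helper50.T1.SUB
import Pool.Agent.helper67.T1.SCR
import Pool.Agent.helper16.T1.YSP
import Pool.Agent.helper30.T1.JSP
import Pool.Agent.helper92.T1.LSP
import Pool.Agent.helper43.T1.CNB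
import Pool.Agent.helper64.T1.BLQ
import Pool.Agent.helper32.T1.MOB
import Pool.Agent.helper41.T1.UZC
import Pool.Agent.helper21.T1.UZN
import Pool.Agent.helper71.T1.RET
import Pool.Agent.helper59.T1.BCN
import Pool.Agent.helper59.T1.LWN
import Pool.Agent.helper94.T1.LTH
import Pool.Agent.helper63.T1.CVR

/-!
# MP_07c750, PROJECT T1: blocks S, G, C assembled (block N: helper65/T1/AllN). `AS_LTH : LTH_stmt` (the leaf theorem) and `AS_CVR : CVR_stmt` (the choice of the windows), without hypotheses.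
-/

set_option autoImplicit false

namespace Pool.Agent.T1

open Pool.Agent.RS Pool.Agent.MS Pool.Agent.HV

/-! ## Inputs of the projects RS, QU, IR -/

theorem S_CTF : IR.CTF_stmt := IR.CTF_proof
theorem S_CTB : IR.CTB_stmt := IR.CTB_proof RS.A_GLC
theorem S_NET : IR.NET_stmt := IR.NET_proof QU.A_DOB

/-! ## Blocks S, G, C -/

theorem AS_MON : MON_stmt := MON_proof
theorem AS_HSB : HSB_stmt := HSB_proof
theorem AS_SUB : SUB_stmt := SUB_proof
theorem AS_SCR : SCR_stmt := SCR_proof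
theorem AS_YSP : YSP_stmt := YSP_proof RS.A_GLC
theorem AS_JSP : JSP_stmt := JSP_proof RS.A_GLC
theorem AS_LSP : LSP_stmt := LSP_proof AS_SUB AS_MON AS_YSP AS_JSP
theorem AS_CNB : CNB_stmt := CNB_proof S_CTF S_CTB AS_YSP AS_JSP RS.A_GLC
theorem AS_BLQ : BLQ_stmt := BLQ_proof AS_HSB AS_CNB
theorem AS_MOB : MOB_stmt := MOB_proof
theorem AS_RET : RET_stmt := RET_proof RS.A_GLC
theorem AS_UZC : UZC_stmt := UZC_proof AS_MOB RS.A_GLC
theorem AS_UZN : UZN_stmt := UZN_proof AS_CNB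
theorem AS_BCN : BCN_stmt := BCN_proof AllN_BDX AS_RET
theorem AS_LWN : LWN_stmt := LWN_proof AS_SUB AS_HSB AS_MON AS_SCR AS_YSP AS_JSP AS_CNB AS_UZC AS_UZN AS_BCN S_NET
theorem AS_LTH : LTH_stmt := LTH_proof AS_LWN AS_BLQ AS_LSP AS_HSB
theorem AS_CVR : CVR_stmt := CVR_proof

end Pool.Agent.T1
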